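import Pool.Agent.V11331.DT.Limit

/-!
# MP_d01e83: the rescaled maximal detached group has no weak limit on `C((0,∞))`

`IsModel P A` is the detachment process (`A k i` is the event that passenger `i ≥ 1` moves to the
new bus `k ≥ 2` at time `k`; these events are independent, of probability `1/k`), `maxDet A k ω` is
`M(k) = max {n : τ̂⁽ⁿ⁾ ≤ k}`, and `IsRescaled A X` says that `X m` is a measurable random
continuous path on `(0,∞)` equal to `t ↦ M(m² t)/m` (linear interpolation) for `t ≥ 1/m²`
(nothing is imposed on `(0, 1/m²)`).  The laws of the `X m` do not converge weakly, not even along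
a subsequence: `M` moves by macroscopic jumps.  Indeed at each time `M` increases with probability
at most `2/k`, so on `[m², T m²]` it has a bounded expected number of jumps; a continuous limit
would therefore be constant on `[1, T]`, which is impossible because `M(2c²m²) ≥ c m` with
probability at least `1/2` for every `c`.
-/

open MeasureTheory ProbabilityTheory Filter Topology Set Pool.Agent.V11331.DT
open scoped ENNReal BoundedContinuousFunction

namespace Pool.Agent.Results.MP_d01e83_pr.NoLimit

theorem result.{u} :
    (∃ (Ω : Type) (_ : MeasurableSpace Ω) (P : Measure Ω) (_ : IsProbabilityMeasure P)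
      (A : ℕ → ℕ → Set Ω), IsModel P A) ∧
    ∀ (Ω : Type u) [MeasurableSpace Ω] (P : Measure Ω) [IsProbabilityMeasure P]
      (A : ℕ → ℕ → Set Ω), IsModel P A →
      (∃ X : ℕ → Ω → PathSpace, IsRescaled A X) ∧
      ∀ X : ℕ → Ω → PathSpace, IsRescaled A X →
        ∀ φ : ℕ → ℕ, Tendsto φ atTop atTop →
          ¬ ∃ μ : Measure PathSpace, IsProbabilityMeasure μ ∧ ∀ F : PathSpace →ᵇ ℝ,
            Tendsto (fun j => ∫ ω, F (X (φ j) ω) ∂P) atTop (𝓝 (∫ f, F f ∂μ)) := by
  refine ⟨exists_model, fun Ω _ P _ A h => ⟨exists_isRescaled h, ?_⟩⟩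
  rintro X hX φ hφ ⟨μ, hμ1, hμ⟩
  exact not_converge h hX hφ hμ

end Pool.Agent.Results.MP_d01e83_pr.NoLimit
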